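import Mathlib

/-!
Symmetric spheres with `2 n + 4` vertices that are not boundary complexes of centrally
symmetric polytopes, for every `n ≥ 3`.
-/

set_option autoImplicit false

namespace Pool.Agent.Results.MP_ca8007_co.NonPolytopalSpheres

open Finset

/-- The vertices of a complex. -/
def verts (K : Finset (Finset ℕ)) : Finset ℕ := K.biUnion id

/-- `K` is a finite abstract simplicial complex (the empty set is a face, and every subset of a
face is a face); its vertices are natural numbers. -/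
def IsComplex (K : Finset (Finset ℕ)) : Prop :=
  ∅ ∈ K ∧ ∀ F ∈ K, ∀ G, G ⊆ F → G ∈ K

/-- The stellar subdivision of `K` at the face `A` with new vertex `v`: the faces that contain `A`
are removed and the cone with apex `v` over (boundary of `A`) * (link of `A`) is added. -/
def stellar (K : Finset (Finset ℕ)) (A : Finset ℕ) (v : ℕ) : Finset (Finset ℕ) :=
  (K.filter fun F => ¬ A ⊆ F) ∪ (K.filter fun G => ¬ A ⊆ G ∧ G ∪ A ∈ K).image (insert v)

/-- `L` is an elementary (stellar) subdivision of the complex `K`, at a nonempty face and with a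
new vertex. -/
def StellarStep (K L : Finset (Finset ℕ)) : Prop :=
  IsComplex K ∧ ∃ A ∈ K, A.Nonempty ∧ ∃ v, v ∉ verts K ∧ L = stellar K A v

/-- Combinatorial `n`-sphere: reachable from the boundary complex (all proper subsets of a set
of `n + 2` vertices) of the `(n+1)`-simplex by finitely many elementary subdivisions and inverses
of elementary subdivisions. -/
def IsCombSphere (n : ℕ) (K : Finset (Finset ℕ)) : Prop :=
  ∃ A : Finset ℕ, A.card = n + 2 ∧ Relation.EqvGen StellarStep A.ssubsets K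

/-- Symmetric `n`-sphere: a combinatorial `n`-sphere with a simplicial involution `φ` such that
every face is disjoint from its image. -/
def IsSymmetricSphere (n : ℕ) (K : Finset (Finset ℕ)) : Prop :=
  IsCombSphere n K ∧ ∃ φ : ℕ → ℕ, (∀ v ∈ verts K, φ (φ v) = v) ∧
    (∀ F ∈ K, F.image φ ∈ K) ∧ ∀ F ∈ K, Disjoint (F.image φ) F

/-- `P` is a centrally symmetric convex polytope of full dimension in `ℝ^d`. -/
def IsCSPolytope (d : ℕ) (P : Set (EuclideanSpace ℝ (Fin d))) : Prop :=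
  (∃ s : Finset (EuclideanSpace ℝ (Fin d)), P = convexHull ℝ (s : Set (EuclideanSpace ℝ (Fin d)))) ∧
    (interior P).Nonempty ∧ ∀ x, x ∈ P ↔ -x ∈ P

/-- `K` is isomorphic to the complex of proper faces of `P`: there is a bijection `f` from the
vertices of `K` onto the vertices of `P` such that a set `A` of vertices of `K` is a face of `K`
exactly when `f '' A` is the vertex set of a proper face of `P`. -/
def IsBoundaryComplex (d : ℕ) (K : Finset (Finset ℕ)) (P : Set (EuclideanSpace ℝ (Fin d))) : Prop :=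
  ∃ f : ℕ → EuclideanSpace ℝ (Fin d), Set.BijOn f (verts K) (P.extremePoints ℝ) ∧
    ∀ A : Finset ℕ, A ⊆ verts K →
      (A ∈ K ↔ ∃ F : Set (EuclideanSpace ℝ (Fin d)), IsExposed ℝ P F ∧ F ≠ P ∧
        F ∩ P.extremePoints ℝ = f '' (A : Set ℕ))

/-! ### Complexes given by their facets -/

/-- The complex generated by a family of sets. -/
def gen (L : Finset (Finset ℕ)) : Finset (Finset ℕ) := L.biUnion Finset.powerset

theorem mem_gen {L : Finset (Finset ℕ)} {F : Finset ℕ} : F ∈ gen L ↔ ∃ G ∈ L, F ⊆ G := by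
  simp [gen]

/-- Facets of the stellar subdivision. -/
def stF (L : Finset (Finset ℕ)) (A : Finset ℕ) (v : ℕ) : Finset (Finset ℕ) :=
  (L.filter fun F => ¬ A ⊆ F) ∪
    (L.filter fun F => A ⊆ F).biUnion (fun G => A.image (fun a => insert v (G.erase a)))

theorem mem_stF {L : Finset (Finset ℕ)} {A F : Finset ℕ} {v : ℕ} :
    F ∈ stF L A v ↔ (F ∈ L ∧ ¬ A ⊆ F) ∨ ∃ G ∈ L, A ⊆ G ∧ ∃ a ∈ A, insert v (G.erase a) = F := by
  simp only [stF, Finset.mem_union, Finset.mem_filter, Finset.mem_biUnion, Finset.mem_image]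
  constructor
  · rintro (h | ⟨G, ⟨h1, h2⟩, a, ha, h3⟩)
    · exact Or.inl h
    · exact Or.inr ⟨G, h1, h2, a, ha, h3⟩
  · rintro (h | ⟨G, h1, h2, a, ha, h3⟩)
    · exact Or.inl h
    · exact Or.inr ⟨G, ⟨h1, h2⟩, a, ha, h3⟩

theorem mem_stellar {K : Finset (Finset ℕ)} {A F : Finset ℕ} {v : ℕ} :
    F ∈ stellar K A v ↔ (F ∈ K ∧ ¬ A ⊆ F) ∨ ∃ G ∈ K, ¬ A ⊆ G ∧ G ∪ A ∈ K ∧ insert v G = F := by
  simp only [stellar, Finset.mem_union, Finset.mem_filter, Finset.mem_image]
  constructor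
  · rintro (h | ⟨G, ⟨h1, h2, h3⟩, h4⟩)
    · exact Or.inl h
    · exact Or.inr ⟨G, h1, h2, h3, h4⟩
  · rintro (h | ⟨G, h1, h2, h3, h4⟩)
    · exact Or.inl h
    · exact Or.inr ⟨G, ⟨h1, h2, h3⟩, h4⟩

theorem stellar_gen {L : Finset (Finset ℕ)} {A : Finset ℕ} {v : ℕ} : stellar (gen L) A v = gen (stF L A v) := by
  ext F
  rw [mem_stellar]
  constructor
  · rintro (⟨h1, h2⟩ | ⟨G, h1, h2, h3, rfl⟩)
    · obtain ⟨G, hG, hFG⟩ := mem_gen.1 h1
      by_cases hAG : A ⊆ G
      · obtain ⟨a, ha, haF⟩ := Finset.not_subset.1 h2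
        refine mem_gen.2 ⟨insert v (G.erase a), mem_stF.2 (Or.inr ⟨G, hG, hAG, a, ha, rfl⟩), ?_⟩
        intro x hx
        refine Finset.mem_insert_of_mem (Finset.mem_erase.2 ⟨?_, hFG hx⟩)
        rintro rfl
        exact haF hx
      · exact mem_gen.2 ⟨G, mem_stF.2 (Or.inl ⟨hG, hAG⟩), hFG⟩
    · obtain ⟨G', hG', hG''⟩ := mem_gen.1 h3
      obtain ⟨a, ha, haF⟩ := Finset.not_subset.1 h2
      have hAG' : A ⊆ G' := fun x hx => hG'' (Finset.mem_union_right _ hx)
      refine mem_gen.2 ⟨insert v (G'.erase a), mem_stF.2 (Or.inr ⟨G', hG', hAG', a, ha, rfl⟩), ?_⟩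
      apply Finset.insert_subset_insert
      intro x hx
      refine Finset.mem_erase.2 ⟨?_, hG'' (Finset.mem_union_left _ hx)⟩
      rintro rfl
      exact haF hx
  · intro h
    obtain ⟨H, hH, hFH⟩ := mem_gen.1 h
    rcases mem_stF.1 hH with ⟨h1, h2⟩ | ⟨G, hG, hAG, a, ha, rfl⟩
    · left
      exact ⟨mem_gen.2 ⟨H, h1, hFH⟩, fun h3 => h2 (h3.trans hFH)⟩
    · by_cases hvF : v ∈ F
      · right
        have hsub : F.erase v ⊆ G.erase a := by
          intro x hx
          have hx1 := Finset.mem_erase.1 hx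
          rcases Finset.mem_insert.1 (hFH hx1.2) with h4 | h4
          · exact absurd h4 hx1.1
          · exact h4
        refine ⟨F.erase v, mem_gen.2 ⟨G, hG, hsub.trans (Finset.erase_subset _ _)⟩, ?_, ?_,
          Finset.insert_erase hvF⟩
        · intro h5
          exact Finset.notMem_erase a G (hsub (h5 ha))
        · refine mem_gen.2 ⟨G, hG, Finset.union_subset (hsub.trans (Finset.erase_subset _ _)) hAG⟩
      · left
        have hsub : F ⊆ G.erase a := by
          intro x hx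
          rcases Finset.mem_insert.1 (hFH hx) with h4 | h4
          · exact absurd (h4 ▸ hx) hvF
          · exact h4
        refine ⟨mem_gen.2 ⟨G, hG, hsub.trans (Finset.erase_subset _ _)⟩, ?_⟩
        intro h5
        exact Finset.notMem_erase a G (hsub (h5 ha))

theorem verts_gen {L : Finset (Finset ℕ)} {v : ℕ} : v ∈ verts (gen L) ↔ ∃ G ∈ L, v ∈ G := by
  simp only [verts, Finset.mem_biUnion, id]
  constructor
  · rintro ⟨F, hF, hv⟩
    obtain ⟨G, hG, hFG⟩ := mem_gen.1 hF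
    exact ⟨G, hG, hFG hv⟩
  · rintro ⟨G, hG, hv⟩
    exact ⟨G, mem_gen.2 ⟨G, hG, subset_rfl⟩, hv⟩

theorem step_gen {L : Finset (Finset ℕ)} {A : Finset ℕ} {v : ℕ} (hA : A.Nonempty)
    (hAL : ∃ G ∈ L, A ⊆ G) (hv : ∀ G ∈ L, v ∉ G) : StellarStep (gen L) (gen (stF L A v)) := by
  refine ⟨⟨?_, ?_⟩, A, mem_gen.2 hAL, hA, v, ?_, stellar_gen.symm⟩
  · obtain ⟨G, hG, -⟩ := hAL
    exact mem_gen.2 ⟨G, hG, Finset.empty_subset _⟩
  · intro F hF G hG
    obtain ⟨H, hH, hFH⟩ := mem_gen.1 hF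
    exact mem_gen.2 ⟨H, hH, hG.trans hFH⟩
  intro h
  obtain ⟨G, hG, h2⟩ := verts_gen.1 h
  exact hv G hG h2

theorem flip_gen {L L' : Finset (Finset ℕ)} {A B : Finset ℕ} {v : ℕ}
    (h : (A.Nonempty ∧ B.Nonempty) ∧ ((∃ G ∈ L, A ⊆ G) ∧ ∃ G ∈ L', B ⊆ G) ∧
      ((∀ G ∈ L, v ∉ G) ∧ ∀ G ∈ L', v ∉ G) ∧ stF L A v = stF L' B v) :
    Relation.EqvGen StellarStep (gen L) (gen L') := by
  obtain ⟨⟨hA, hB⟩, ⟨hAL, hBL⟩, ⟨hv, hv'⟩, he⟩ := h
  have h1 := step_gen hA hAL hv
  have h2 := step_gen hB hBL hv'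
  rw [he] at h1
  exact (Relation.EqvGen.rel _ _ h1).trans _ _ _ ((Relation.EqvGen.rel _ _ h2).symm _ _)

theorem add_gen {L L' : Finset (Finset ℕ)} {B : Finset ℕ} {v : ℕ}
    (h : B.Nonempty ∧ (∃ G ∈ L', B ⊆ G) ∧ (∀ G ∈ L', v ∉ G) ∧ L = stF L' B v) :
    Relation.EqvGen StellarStep (gen L) (gen L') := by
  obtain ⟨hB, hBL, hv', he⟩ := h
  have h2 := step_gen hB hBL hv'
  rw [← he] at h2
  exact (Relation.EqvGen.rel _ _ h2).symm _ _

/-! ### Suspension -/

/-- The shift `v ↦ v + 2` of the vertices. -/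
def sh : ℕ ↪ ℕ := addRightEmbedding 2

@[simp] theorem sh_apply (v : ℕ) : sh v = v + 2 := rfl

/-- The suspension of `K`; the vertex `v` of `K` becomes `v + 2`, the two new vertices are
`0` and `1`. -/
def susp (K : Finset (Finset ℕ)) : Finset (Finset ℕ) :=
  (({∅, {0}, {1}} : Finset (Finset ℕ)) ×ˢ K).image (fun p => p.1 ∪ p.2.map sh)

/-- Admissible tops. -/
def Tops : Finset (Finset ℕ) := {∅, {0}, {1}}

theorem mem_Tops {T : Finset ℕ} : T ∈ Tops ↔ T = ∅ ∨ T = {0} ∨ T = {1} := by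
  simp [Tops]

theorem mem_susp {K : Finset (Finset ℕ)} {F : Finset ℕ} :
    F ∈ susp K ↔ ∃ T ∈ Tops, ∃ G ∈ K, T ∪ G.map sh = F := by
  simp only [susp, Finset.mem_image, Finset.mem_product, Prod.exists]
  constructor
  · rintro ⟨T, G, ⟨h1, h2⟩, h3⟩
    exact ⟨T, h1, G, h2, h3⟩
  · rintro ⟨T, h1, G, h2, h3⟩
    exact ⟨T, G, ⟨h1, h2⟩, h3⟩

theorem top_lt {T : Finset ℕ} (hT : T ∈ Tops) {x : ℕ} (hx : x ∈ T) : x < 2 := by
  rcases mem_Tops.1 hT with rfl | rfl | rfl
  · simp at hx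
  · simp at hx; omega
  · simp at hx; omega

theorem mem_map_sh {G : Finset ℕ} {x : ℕ} : x ∈ G.map sh ↔ 2 ≤ x ∧ x - 2 ∈ G := by
  simp only [Finset.mem_map, sh_apply]
  constructor
  · rintro ⟨a, ha, rfl⟩
    exact ⟨by omega, by simpa using ha⟩
  · rintro ⟨h1, h2⟩
    exact ⟨x - 2, h2, by omega⟩

theorem add_two_mem {G : Finset ℕ} {x : ℕ} : x + 2 ∈ G.map sh ↔ x ∈ G := by
  rw [mem_map_sh]
  simp

theorem subset_join {T : Finset ℕ} (hT : T ∈ Tops) {A G : Finset ℕ} :
    A.map sh ⊆ T ∪ G.map sh ↔ A ⊆ G := by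
  constructor
  · intro h x hx
    have h1 := h (add_two_mem.2 hx)
    rcases Finset.mem_union.1 h1 with h2 | h2
    · have := top_lt hT h2
      omega
    · exact add_two_mem.1 h2
  · intro h x hx
    rw [mem_map_sh] at hx
    exact Finset.mem_union_right _ (mem_map_sh.2 ⟨hx.1, h hx.2⟩)

theorem join_inj {T T' : Finset ℕ} (hT : T ∈ Tops) (hT' : T' ∈ Tops) {G G' : Finset ℕ}
    (h : T ∪ G.map sh = T' ∪ G'.map sh) : T = T' ∧ G = G' := by
  constructor
  · ext x
    constructor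
    · intro hx
      have h1 : x ∈ T' ∪ G'.map sh := h ▸ Finset.mem_union_left _ hx
      rcases Finset.mem_union.1 h1 with h2 | h2
      · exact h2
      · have := (mem_map_sh.1 h2).1
        have := top_lt hT hx
        omega
    · intro hx
      have h1 : x ∈ T ∪ G.map sh := h ▸ Finset.mem_union_left _ hx
      rcases Finset.mem_union.1 h1 with h2 | h2
      · exact h2
      · have := (mem_map_sh.1 h2).1
        have := top_lt hT' hx
        omega
  · apply Finset.Subset.antisymm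
    · rw [← subset_join hT', ← h]
      exact Finset.subset_union_right
    · rw [← subset_join hT, h]
      exact Finset.subset_union_right

theorem join_mem_susp {K : Finset (Finset ℕ)} {T G : Finset ℕ} (hT : T ∈ Tops) :
    T ∪ G.map sh ∈ susp K ↔ G ∈ K := by
  rw [mem_susp]
  constructor
  · rintro ⟨T', hT', G', hG', h⟩
    rw [← (join_inj hT' hT h).2]
    exact hG'
  · intro h
    exact ⟨T, hT, G, h, rfl⟩

theorem join_union {T G A : Finset ℕ} :
    (T ∪ G.map sh) ∪ A.map sh = T ∪ (G ∪ A).map sh := by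
  rw [Finset.map_union, Finset.union_assoc]

theorem join_insert {T G : Finset ℕ} {v : ℕ} :
    insert (v + 2) (T ∪ G.map sh) = T ∪ (insert v G).map sh := by
  rw [Finset.map_insert, sh_apply, Finset.union_insert]

theorem susp_stellar {K : Finset (Finset ℕ)} {A : Finset ℕ} {v : ℕ} :
    susp (stellar K A v) = stellar (susp K) (A.map sh) (v + 2) := by
  ext F
  rw [mem_susp, mem_stellar]
  constructor
  · rintro ⟨T, hT, G, hG, rfl⟩
    rcases mem_stellar.1 hG with ⟨h1, h2⟩ | ⟨G', h1, h2, h3, rfl⟩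
    · left
      exact ⟨(join_mem_susp hT).2 h1, by rwa [subset_join hT]⟩
    · right
      refine ⟨T ∪ G'.map sh, (join_mem_susp hT).2 h1, by rwa [subset_join hT], ?_, join_insert⟩
      rw [join_union]
      exact (join_mem_susp hT).2 h3
  · rintro (⟨h1, h2⟩ | ⟨G, h1, h2, h3, rfl⟩)
    · obtain ⟨T, hT, G, hG, rfl⟩ := mem_susp.1 h1
      rw [subset_join hT] at h2
      exact ⟨T, hT, G, mem_stellar.2 (Or.inl ⟨hG, h2⟩), rfl⟩
    · obtain ⟨T, hT, G, hG, rfl⟩ := mem_susp.1 h1
      rw [subset_join hT] at h2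
      rw [join_union, join_mem_susp hT] at h3
      exact ⟨T, hT, insert v G, mem_stellar.2 (Or.inr ⟨G, hG, h2, h3, rfl⟩), join_insert.symm⟩

theorem mem_verts {K : Finset (Finset ℕ)} {v : ℕ} : v ∈ verts K ↔ ∃ F ∈ K, v ∈ F := by
  simp [verts]

theorem add_two_mem_verts {K : Finset (Finset ℕ)} {v : ℕ} :
    v + 2 ∈ verts (susp K) ↔ v ∈ verts K := by
  rw [mem_verts, mem_verts]
  constructor
  · rintro ⟨F, hF, hv⟩
    obtain ⟨T, hT, G, hG, rfl⟩ := mem_susp.1 hF
    rcases Finset.mem_union.1 hv with h | h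
    · have := top_lt hT h
      omega
    · exact ⟨G, hG, add_two_mem.1 h⟩
  · rintro ⟨F, hF, hv⟩
    refine ⟨∅ ∪ F.map sh, (join_mem_susp (by simp [Tops])).2 hF, ?_⟩
    exact Finset.mem_union_right _ (add_two_mem.2 hv)

theorem susp_complex {K : Finset (Finset ℕ)} (hK : IsComplex K) : IsComplex (susp K) := by
  refine ⟨?_, ?_⟩
  · have := (join_mem_susp (K := K) (T := ∅) (G := ∅) (by simp [Tops])).2 hK.1
    simpa using this
  · intro F hF G hG
    obtain ⟨T, hT, H, hH, rfl⟩ := mem_susp.1 hF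
    have hT' : G ∩ T ∈ Tops := by
      rcases mem_Tops.1 hT with rfl | rfl | rfl
      · simp [Tops]
      · by_cases h : 0 ∈ G
        · rw [Finset.inter_singleton_of_mem h]; exact hT
        · rw [Finset.inter_singleton_of_notMem h]; simp [Tops]
      · by_cases h : 1 ∈ G
        · rw [Finset.inter_singleton_of_mem h]; exact hT
        · rw [Finset.inter_singleton_of_notMem h]; simp [Tops]
    obtain ⟨H', hH', hGH'⟩ : ∃ H' ⊆ H, G ∩ H.map sh = H'.map sh :=
      Finset.subset_map_iff.1 Finset.inter_subset_right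
    have : G = (G ∩ T) ∪ H'.map sh := by
      rw [← hGH', ← Finset.inter_union_distrib_left]
      exact (Finset.inter_eq_left.2 hG).symm
    rw [this]
    exact (join_mem_susp hT').2 (hK.2 H hH H' hH')

theorem susp_step {K L : Finset (Finset ℕ)} (h : StellarStep K L) :
    StellarStep (susp K) (susp L) := by
  obtain ⟨hK, A, hA, hne, v, hv, rfl⟩ := h
  refine ⟨susp_complex hK, A.map sh, ?_, hne.map, v + 2, ?_, susp_stellar⟩
  · have := (join_mem_susp (K := K) (T := ∅) (G := A) (by simp [Tops])).2 hA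
    simpa using this
  · rwa [add_two_mem_verts]

theorem susp_eqv {K L : Finset (Finset ℕ)} (h : Relation.EqvGen StellarStep K L) :
    Relation.EqvGen StellarStep (susp K) (susp L) := by
  induction h with
  | rel x y h => exact Relation.EqvGen.rel _ _ (susp_step h)
  | refl x => exact Relation.EqvGen.refl _
  | symm x y _ ih => exact ih.symm _ _
  | trans x y z _ _ ih1 ih2 => exact ih1.trans _ _ _ ih2

theorem susp_simplex {A : Finset ℕ} :
    susp A.ssubsets = stellar (insert 0 (A.map sh)).ssubsets (A.map sh) 1 := by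
  have h0 : (0 : ℕ) ∉ A.map sh := by rw [mem_map_sh]; omega
  ext F
  rw [mem_susp, mem_stellar]
  simp only [Finset.mem_ssubsets]
  constructor
  · rintro ⟨T, hT, G, hG, rfl⟩
    have hGA : ¬ A ⊆ G := fun h => hG.2 h
    rcases mem_Tops.1 hT with rfl | rfl | rfl
    · left
      refine ⟨⟨?_, ?_⟩, ?_⟩
      · intro x hx
        rw [Finset.empty_union] at hx
        exact Finset.mem_insert_of_mem (Finset.map_subset_map.2 hG.1 hx)
      · intro h
        have h1 := h (Finset.mem_insert_self 0 _)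
        rw [Finset.empty_union, mem_map_sh] at h1
        omega
      · rwa [subset_join hT]
    · left
      refine ⟨⟨?_, ?_⟩, ?_⟩
      · intro x hx
        rcases Finset.mem_union.1 hx with h | h
        · rw [Finset.mem_singleton] at h
          rw [h]; exact Finset.mem_insert_self _ _
        · exact Finset.mem_insert_of_mem (Finset.map_subset_map.2 hG.1 h)
      · intro h
        apply hGA
        rw [← subset_join hT]
        exact (Finset.subset_insert _ _).trans h
      · rwa [subset_join hT]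
    · right
      refine ⟨G.map sh, ⟨?_, ?_⟩, ?_, ⟨?_, ?_⟩, ?_⟩
      · exact (Finset.map_subset_map.2 hG.1).trans (Finset.subset_insert _ _)
      · intro h
        have h1 := h (Finset.mem_insert_self 0 _)
        rw [mem_map_sh] at h1
        omega
      · rwa [Finset.map_subset_map]
      · exact Finset.union_subset ((Finset.map_subset_map.2 hG.1).trans (Finset.subset_insert _ _))
          (Finset.subset_insert _ _)
      · intro h
        have h1 := h (Finset.mem_insert_self 0 _)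
        rcases Finset.mem_union.1 h1 with h2 | h2
        · rw [mem_map_sh] at h2; omega
        · exact h0 h2
      · rfl
  · have key : ∀ F : Finset ℕ, F ⊆ insert 0 (A.map sh) → ¬ A.map sh ⊆ F → 0 ∉ F →
        ∃ G, G ⊂ A ∧ F = G.map sh := by
      intro F hF hAF h0F
      obtain ⟨G, hG, rfl⟩ : ∃ G ⊆ A, F = G.map sh := by
        apply Finset.subset_map_iff.1
        intro x hx
        rcases Finset.mem_insert.1 (hF hx) with h | h
        · exact absurd (h ▸ hx) h0F
        · exact h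
      refine ⟨G, ⟨hG, ?_⟩, rfl⟩
      intro h
      exact hAF (Finset.map_subset_map.2 h)
    rintro (⟨⟨h1, h2⟩, h3⟩ | ⟨G, ⟨h1, h2⟩, h3, ⟨h4, h5⟩, rfl⟩)
    · by_cases hF0 : 0 ∈ F
      · obtain ⟨G, hG, hFG⟩ := key (F.erase 0) ((Finset.erase_subset _ _).trans h1)
          (fun h => h3 (h.trans (Finset.erase_subset _ _))) (Finset.notMem_erase _ _)
        refine ⟨{0}, by simp [Tops], G, hG, ?_⟩
        rw [← hFG, ← Finset.insert_eq, Finset.insert_erase hF0]
      · obtain ⟨G, hG, rfl⟩ := key F h1 h3 hF0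
        exact ⟨∅, by simp [Tops], G, hG, by simp⟩
    · have hG0 : 0 ∉ G := by
        intro h
        apply h5
        intro x hx
        rcases Finset.mem_insert.1 hx with rfl | hx
        · exact Finset.mem_union_left _ h
        · exact Finset.mem_union_right _ hx
      obtain ⟨G', hG', rfl⟩ := key G h1 h3 hG0
      refine ⟨{1}, by simp [Tops], G', hG', ?_⟩
      rw [← Finset.insert_eq]

theorem susp_sphere {n : ℕ} {K : Finset (Finset ℕ)} (h : IsCombSphere n K) :
    IsCombSphere (n + 1) (susp K) := by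
  obtain ⟨A, hA, hK⟩ := h
  have h0 : (0 : ℕ) ∉ A.map sh := by rw [mem_map_sh]; omega
  refine ⟨insert 0 (A.map sh), ?_, ?_⟩
  · rw [Finset.card_insert_of_notMem h0, Finset.card_map, hA]
  · have h1 := susp_eqv hK
    refine Relation.EqvGen.trans _ _ _ (Relation.EqvGen.rel _ _ ?_) h1
    refine ⟨⟨?_, ?_⟩, A.map sh, ?_, ?_, 1, ?_, susp_simplex⟩
    · rw [Finset.mem_ssubsets]
      refine ⟨Finset.empty_subset _, fun h => ?_⟩
      exact Finset.notMem_empty 0 (h (Finset.mem_insert_self 0 _))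
    · intro F hF G hG
      rw [Finset.mem_ssubsets] at hF ⊢
      exact lt_of_le_of_lt hG hF
    · rw [Finset.mem_ssubsets]
      exact Finset.ssubset_insert h0
    · apply Finset.Nonempty.map
      rw [← Finset.card_pos]
      omega
    · intro h2
      obtain ⟨F, hF, h3⟩ := mem_verts.1 h2
      rw [Finset.mem_ssubsets] at hF
      rcases Finset.mem_insert.1 (hF.1 h3) with h4 | h4
      · omega
      · rw [mem_map_sh] at h4
        omega

/-! ### The sphere on ten vertices and its chain of flips -/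

/-- Facets of the complex number 0 of the chain. -/
def C0 : Finset (Finset ℕ) :=
  {{0, 1, 2, 4}, {0, 1, 2, 8}, {0, 1, 4, 8}, {0, 2, 3, 4}, {0, 2, 3, 9}, {0, 2, 6, 8}, {0, 2, 6, 9}, {0, 3, 4, 6}, {0, 3, 6, 9}, {0, 4, 6, 7}, {0, 4, 7, 8}, {0, 6, 7, 8}, {1, 2, 3, 4}, {1, 2, 3, 5}, {1, 2, 5, 9}, {1, 2, 8, 9}, {1, 3, 4, 7}, {1, 3, 5, 7}, {1, 4, 5, 7}, {1, 4, 5, 8}, {1, 5, 8, 9}, {2, 3, 5, 9}, {2, 6, 8, 9}, {3, 4, 6, 7}, {3, 5, 6, 7}, {3, 5, 6, 9}, {4, 5, 7, 8}, {5, 6, 7, 9}, {5, 7, 8, 9}, {6, 7, 8, 9}}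

/-- Facets of the complex number 1 of the chain. -/
def C1 : Finset (Finset ℕ) :=
  {{0, 1, 2, 4}, {0, 1, 2, 8}, {0, 1, 4, 8}, {0, 2, 3, 4}, {0, 2, 3, 9}, {0, 2, 8, 9}, {0, 3, 4, 6}, {0, 3, 6, 9}, {0, 4, 6, 7}, {0, 4, 7, 8}, {0, 6, 7, 8}, {0, 6, 8, 9}, {1, 2, 3, 4}, {1, 2, 3, 5}, {1, 2, 5, 9}, {1, 2, 8, 9}, {1, 3, 4, 7}, {1, 3, 5, 7}, {1, 4, 5, 7}, {1, 4, 5, 8}, {1, 5, 8, 9}, {2, 3, 5, 9}, {3, 4, 6, 7}, {3, 5, 6, 7}, {3, 5, 6, 9}, {4, 5, 7, 8}, {5, 6, 7, 9}, {5, 7, 8, 9}, {6, 7, 8, 9}}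

/-- Facets of the complex number 2 of the chain. -/
def C2 : Finset (Finset ℕ) :=
  {{0, 1, 2, 4}, {0, 1, 2, 8}, {0, 1, 4, 8}, {0, 2, 3, 4}, {0, 2, 3, 9}, {0, 2, 8, 9}, {0, 3, 4, 6}, {0, 3, 6, 9}, {0, 4, 6, 7}, {0, 4, 7, 8}, {0, 6, 7, 9}, {0, 7, 8, 9}, {1, 2, 3, 4}, {1, 2, 3, 5}, {1, 2, 5, 9}, {1, 2, 8, 9}, {1, 3, 4, 7}, {1, 3, 5, 7}, {1, 4, 5, 7}, {1, 4, 5, 8}, {1, 5, 8, 9}, {2, 3, 5, 9}, {3, 4, 6, 7}, {3, 5, 6, 7}, {3, 5, 6, 9}, {4, 5, 7, 8}, {5, 6, 7, 9}, {5, 7, 8, 9}}

/-- Facets of the complex number 3 of the chain. -/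
def C3 : Finset (Finset ℕ) :=
  {{0, 1, 2, 4}, {0, 1, 2, 8}, {0, 1, 4, 8}, {0, 2, 3, 4}, {0, 2, 3, 9}, {0, 2, 8, 9}, {0, 3, 4, 6}, {0, 3, 6, 9}, {0, 4, 6, 7}, {0, 4, 7, 8}, {0, 6, 7, 9}, {0, 7, 8, 9}, {1, 2, 3, 4}, {1, 2, 3, 5}, {1, 2, 5, 9}, {1, 2, 8, 9}, {1, 3, 4, 7}, {1, 3, 5, 7}, {1, 4, 7, 8}, {1, 5, 7, 8}, {1, 5, 8, 9}, {2, 3, 5, 9}, {3, 4, 6, 7}, {3, 5, 6, 7}, {3, 5, 6, 9}, {5, 6, 7, 9}, {5, 7, 8, 9}}

/-- Facets of the complex number 4 of the chain. -/
def C4 : Finset (Finset ℕ) :=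
  {{0, 1, 2, 4}, {0, 1, 2, 8}, {0, 1, 4, 7}, {0, 1, 7, 8}, {0, 2, 3, 4}, {0, 2, 3, 9}, {0, 2, 8, 9}, {0, 3, 4, 6}, {0, 3, 6, 9}, {0, 4, 6, 7}, {0, 6, 7, 9}, {0, 7, 8, 9}, {1, 2, 3, 4}, {1, 2, 3, 5}, {1, 2, 5, 9}, {1, 2, 8, 9}, {1, 3, 4, 7}, {1, 3, 5, 7}, {1, 5, 7, 8}, {1, 5, 8, 9}, {2, 3, 5, 9}, {3, 4, 6, 7}, {3, 5, 6, 7}, {3, 5, 6, 9}, {5, 6, 7, 9}, {5, 7, 8, 9}}

/-- Facets of the complex number 5 of the chain. -/
def C5 : Finset (Finset ℕ) :=
  {{0, 1, 2, 4}, {0, 1, 2, 8}, {0, 1, 4, 7}, {0, 1, 7, 8}, {0, 2, 3, 4}, {0, 2, 3, 9}, {0, 2, 8, 9}, {0, 3, 4, 6}, {0, 3, 6, 9}, {0, 4, 6, 7}, {0, 6, 7, 9}, {0, 7, 8, 9}, {1, 2, 3, 4}, {1, 2, 3, 5}, {1, 2, 5, 9}, {1, 2, 8, 9}, {1, 3, 4, 7}, {1, 3, 5, 7}, {1, 5, 7, 8}, {1, 5, 8, 9}, {2, 3, 5, 9}, {3, 4, 6, 7}, {3, 5, 7, 9}, {3, 6, 7, 9}, {5, 7, 8, 9}}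

/-- Facets of the complex number 6 of the chain. -/
def C6 : Finset (Finset ℕ) :=
  {{0, 1, 2, 3}, {0, 1, 2, 8}, {0, 1, 3, 4}, {0, 1, 4, 7}, {0, 1, 7, 8}, {0, 2, 3, 9}, {0, 2, 8, 9}, {0, 3, 4, 6}, {0, 3, 6, 9}, {0, 4, 6, 7}, {0, 6, 7, 9}, {0, 7, 8, 9}, {1, 2, 3, 5}, {1, 2, 5, 9}, {1, 2, 8, 9}, {1, 3, 4, 7}, {1, 3, 5, 7}, {1, 5, 7, 8}, {1, 5, 8, 9}, {2, 3, 5, 9}, {3, 4, 6, 7}, {3, 5, 7, 9}, {3, 6, 7, 9}, {5, 7, 8, 9}}

/-- Facets of the complex number 7 of the chain. -/
def C7 : Finset (Finset ℕ) :=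
  {{0, 1, 2, 3}, {0, 1, 2, 8}, {0, 1, 3, 4}, {0, 1, 4, 7}, {0, 1, 7, 8}, {0, 2, 3, 9}, {0, 2, 8, 9}, {0, 3, 4, 6}, {0, 3, 6, 9}, {0, 4, 6, 7}, {0, 6, 7, 9}, {0, 7, 8, 9}, {1, 2, 3, 5}, {1, 2, 5, 9}, {1, 2, 8, 9}, {1, 3, 4, 7}, {1, 3, 5, 7}, {1, 5, 7, 9}, {1, 7, 8, 9}, {2, 3, 5, 9}, {3, 4, 6, 7}, {3, 5, 7, 9}, {3, 6, 7, 9}}

/-- Facets of the complex number 8 of the chain. -/
def C8 : Finset (Finset ℕ) :=
  {{0, 1, 2, 3}, {0, 1, 2, 8}, {0, 1, 3, 4}, {0, 1, 4, 7}, {0, 1, 7, 8}, {0, 2, 3, 9}, {0, 2, 8, 9}, {0, 3, 4, 6}, {0, 3, 6, 9}, {0, 4, 6, 7}, {0, 6, 7, 9}, {0, 7, 8, 9}, {1, 2, 3, 9}, {1, 2, 8, 9}, {1, 3, 4, 7}, {1, 3, 5, 7}, {1, 3, 5, 9}, {1, 5, 7, 9}, {1, 7, 8, 9}, {3, 4, 6, 7}, {3, 5, 7, 9}, {3, 6, 7, 9}}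

/-- Facets of the complex number 9 of the chain. -/
def C9 : Finset (Finset ℕ) :=
  {{0, 1, 2, 3}, {0, 1, 2, 8}, {0, 1, 3, 4}, {0, 1, 4, 7}, {0, 1, 7, 8}, {0, 2, 3, 9}, {0, 2, 8, 9}, {0, 3, 4, 6}, {0, 3, 6, 9}, {0, 4, 6, 7}, {0, 6, 7, 9}, {0, 7, 8, 9}, {1, 2, 3, 9}, {1, 2, 8, 9}, {1, 3, 4, 7}, {1, 3, 7, 9}, {1, 7, 8, 9}, {3, 4, 6, 7}, {3, 6, 7, 9}}

/-- Facets of the complex number 10 of the chain. -/
def C10 : Finset (Finset ℕ) :=
  {{0, 1, 2, 3}, {0, 1, 2, 8}, {0, 1, 3, 4}, {0, 1, 4, 7}, {0, 1, 7, 9}, {0, 1, 8, 9}, {0, 2, 3, 9}, {0, 2, 8, 9}, {0, 3, 4, 6}, {0, 3, 6, 9}, {0, 4, 6, 7}, {0, 6, 7, 9}, {1, 2, 3, 9}, {1, 2, 8, 9}, {1, 3, 4, 7}, {1, 3, 7, 9}, {3, 4, 6, 7}, {3, 6, 7, 9}}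

/-- Facets of the complex number 11 of the chain. -/
def C11 : Finset (Finset ℕ) :=
  {{0, 1, 2, 3}, {0, 1, 2, 9}, {0, 1, 3, 4}, {0, 1, 4, 7}, {0, 1, 7, 9}, {0, 2, 3, 9}, {0, 3, 4, 6}, {0, 3, 6, 9}, {0, 4, 6, 7}, {0, 6, 7, 9}, {1, 2, 3, 9}, {1, 3, 4, 7}, {1, 3, 7, 9}, {3, 4, 6, 7}, {3, 6, 7, 9}}

/-- Facets of the complex number 12 of the chain. -/
def C12 : Finset (Finset ℕ) :=
  {{0, 1, 3, 4}, {0, 1, 3, 9}, {0, 1, 4, 7}, {0, 1, 7, 9}, {0, 3, 4, 6}, {0, 3, 6, 9}, {0, 4, 6, 7}, {0, 6, 7, 9}, {1, 3, 4, 7}, {1, 3, 7, 9}, {3, 4, 6, 7}, {3, 6, 7, 9}}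

/-- Facets of the complex number 13 of the chain. -/
def C13 : Finset (Finset ℕ) :=
  {{0, 1, 3, 4}, {0, 1, 3, 9}, {0, 1, 4, 7}, {0, 1, 7, 9}, {0, 3, 4, 7}, {0, 3, 6, 7}, {0, 3, 6, 9}, {0, 6, 7, 9}, {1, 3, 4, 7}, {1, 3, 7, 9}, {3, 6, 7, 9}}

/-- Facets of the complex number 14 of the chain. -/
def C14 : Finset (Finset ℕ) :=
  {{0, 1, 3, 7}, {0, 1, 3, 9}, {0, 1, 7, 9}, {0, 3, 6, 7}, {0, 3, 6, 9}, {0, 6, 7, 9}, {1, 3, 7, 9}, {3, 6, 7, 9}}

/-- Facets of the complex number 15 of the chain. -/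
def C15 : Finset (Finset ℕ) :=
  {{0, 1, 3, 7}, {0, 1, 3, 9}, {0, 1, 7, 9}, {0, 3, 7, 9}, {1, 3, 7, 9}}

theorem step0 : Relation.EqvGen StellarStep (gen C0) (gen C1) :=
  flip_gen (A := {2, 6}) (B := {0, 8, 9}) (v := 10) (by decide +kernel)

theorem step1 : Relation.EqvGen StellarStep (gen C1) (gen C2) :=
  flip_gen (A := {6, 8}) (B := {0, 7, 9}) (v := 10) (by decide +kernel)

theorem step2 : Relation.EqvGen StellarStep (gen C2) (gen C3) :=
  flip_gen (A := {4, 5}) (B := {1, 7, 8}) (v := 10) (by decide +kernel)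

theorem step3 : Relation.EqvGen StellarStep (gen C3) (gen C4) :=
  flip_gen (A := {4, 8}) (B := {0, 1, 7}) (v := 10) (by decide +kernel)

theorem step4 : Relation.EqvGen StellarStep (gen C4) (gen C5) :=
  flip_gen (A := {5, 6}) (B := {3, 7, 9}) (v := 10) (by decide +kernel)

theorem step5 : Relation.EqvGen StellarStep (gen C5) (gen C6) :=
  flip_gen (A := {2, 4}) (B := {0, 1, 3}) (v := 10) (by decide +kernel)

theorem step6 : Relation.EqvGen StellarStep (gen C6) (gen C7) :=
  flip_gen (A := {5, 8}) (B := {1, 7, 9}) (v := 10) (by decide +kernel)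

theorem step7 : Relation.EqvGen StellarStep (gen C7) (gen C8) :=
  flip_gen (A := {2, 5}) (B := {1, 3, 9}) (v := 10) (by decide +kernel)

theorem step8 : Relation.EqvGen StellarStep (gen C8) (gen C9) :=
  add_gen (B := {1, 3, 7, 9}) (v := 5) (by decide +kernel)

theorem step9 : Relation.EqvGen StellarStep (gen C9) (gen C10) :=
  flip_gen (A := {7, 8}) (B := {0, 1, 9}) (v := 10) (by decide +kernel)

theorem step10 : Relation.EqvGen StellarStep (gen C10) (gen C11) :=
  add_gen (B := {0, 1, 2, 9}) (v := 8) (by decide +kernel)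

theorem step11 : Relation.EqvGen StellarStep (gen C11) (gen C12) :=
  add_gen (B := {0, 1, 3, 9}) (v := 2) (by decide +kernel)

theorem step12 : Relation.EqvGen StellarStep (gen C12) (gen C13) :=
  flip_gen (A := {4, 6}) (B := {0, 3, 7}) (v := 10) (by decide +kernel)

theorem step13 : Relation.EqvGen StellarStep (gen C13) (gen C14) :=
  add_gen (B := {0, 1, 3, 7}) (v := 4) (by decide +kernel)

theorem step14 : Relation.EqvGen StellarStep (gen C14) (gen C15) :=
  add_gen (B := {0, 3, 7, 9}) (v := 6) (by decide +kernel)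


theorem chain : Relation.EqvGen StellarStep (gen C0) (gen C15) :=
  step0.trans _ _ _ <| step1.trans _ _ _ <| step2.trans _ _ _ <| step3.trans _ _ _ <|
  step4.trans _ _ _ <| step5.trans _ _ _ <| step6.trans _ _ _ <| step7.trans _ _ _ <|
  step8.trans _ _ _ <| step9.trans _ _ _ <| step10.trans _ _ _ <| step11.trans _ _ _ <|
  step12.trans _ _ _ <| step13.trans _ _ _ step14

theorem base_sphere : IsCombSphere 3 (gen C0) := by
  refine ⟨{0, 1, 3, 7, 9}, by decide, ?_⟩
  have h : (({0, 1, 3, 7, 9} : Finset ℕ)).ssubsets = gen C15 := by decide +kernel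
  rw [h]
  exact chain.symm _ _

attribute [irreducible] C0

/-- The antipodal map on the ten vertices. -/
def phi0 (v : ℕ) : ℕ := if v < 5 then v + 5 else v - 5

theorem verts_base (v : ℕ) : v ∈ verts (gen C0) ↔ v < 10 := by
  have h : verts (gen C0) = Finset.range 10 := by decide +kernel
  rw [h, Finset.mem_range]

theorem image_base : ∀ F ∈ gen C0, F.image phi0 ∈ gen C0 := by
  have h : ∀ G ∈ C0, G.image phi0 ∈ C0 := by decide +kernel
  intro F hF
  obtain ⟨G, hG, hFG⟩ := mem_gen.1 hF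
  exact mem_gen.2 ⟨_, h G hG, Finset.image_subset_image hFG⟩

theorem disj_base : ∀ F ∈ gen C0, Disjoint (F.image phi0) F := by
  have h : ∀ G ∈ C0, Disjoint (G.image phi0) G := by decide +kernel
  intro F hF
  obtain ⟨G, hG, hFG⟩ := mem_gen.1 hF
  exact (h G hG).mono (Finset.image_subset_image hFG) hFG

theorem edge_base : ∀ v ∈ verts (gen C0), ∀ w ∈ verts (gen C0), w ≠ phi0 v →
    ({v, w} : Finset ℕ) ∈ gen C0 := by
  have h : ∀ v ∈ Finset.range 10, ∀ w ∈ Finset.range 10, w ≠ phi0 v →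
      ∃ G ∈ C0, ({v, w} : Finset ℕ) ⊆ G := by decide +kernel
  intro v hv w hw hne
  rw [verts_base] at hv hw
  exact mem_gen.2 (h v (Finset.mem_range.2 hv) w (Finset.mem_range.2 hw) hne)

/-! ### The spheres `K k` -/

/-- `K k` is the `k`-fold suspension of the sphere on ten vertices. -/
def KK : ℕ → Finset (Finset ℕ)
  | 0 => gen C0
  | k + 1 => susp (KK k)

/-- The antipodal map of `KK k`. -/
def phi : ℕ → ℕ → ℕ
  | 0, v => phi0 v
  | k + 1, v => if v = 0 then 1 else if v = 1 then 0 else phi k (v - 2) + 2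

theorem phi_zero (k : ℕ) : phi (k + 1) 0 = 1 := by simp [phi]

theorem phi_one (k : ℕ) : phi (k + 1) 1 = 0 := by simp [phi]

theorem phi_add_two (k v : ℕ) : phi (k + 1) (v + 2) = phi k v + 2 := by simp [phi]

theorem KK_sphere (k : ℕ) : IsCombSphere (3 + k) (KK k) := by
  induction k with
  | zero => exact base_sphere
  | succ k ih => exact susp_sphere ih

theorem empty_mem (k : ℕ) : ∅ ∈ KK k := by
  induction k with
  | zero => decide +kernel
  | succ k ih =>
    have := (join_mem_susp (K := KK k) (T := ∅) (G := ∅) (by simp [Tops])).2 ih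
    rwa [Finset.map_empty, Finset.union_empty] at this

theorem single_mem (k : ℕ) {T : Finset ℕ} (hT : T ∈ Tops) : T ∈ KK (k + 1) := by
  have := (join_mem_susp (K := KK k) (T := T) (G := ∅) hT).2 (empty_mem k)
  rwa [Finset.map_empty, Finset.union_empty] at this

theorem verts_succ (k : ℕ) : verts (KK (k + 1)) = {0, 1} ∪ (verts (KK k)).map sh := by
  ext v
  rw [Finset.mem_union, mem_map_sh, Finset.mem_insert, Finset.mem_singleton]
  rcases Nat.lt_or_ge v 2 with h | h
  · constructor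
    · intro _
      omega
    · intro _
      have hv : v = 0 ∨ v = 1 := by omega
      rcases hv with rfl | rfl
      · exact mem_verts.2 ⟨{0}, single_mem k (by simp [Tops]), by simp⟩
      · exact mem_verts.2 ⟨{1}, single_mem k (by simp [Tops]), by simp⟩
  · obtain ⟨u, rfl⟩ : ∃ u, v = u + 2 := ⟨v - 2, by omega⟩
    show u + 2 ∈ verts (susp (KK k)) ↔ _
    rw [add_two_mem_verts]
    constructor
    · intro hu
      exact Or.inr ⟨by omega, by simpa using hu⟩
    · rintro ((h1 | h1) | h1)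
      · omega
      · omega
      · simpa using h1.2

theorem verts_card (k : ℕ) : (verts (KK k)).card = 2 * (3 + k) + 4 := by
  induction k with
  | zero =>
    have h : verts (KK 0) = Finset.range 10 := by
      ext v
      rw [Finset.mem_range]
      exact verts_base v
    rw [h, Finset.card_range]
  | succ k ih =>
    rw [verts_succ, Finset.card_union_of_disjoint, Finset.card_map, ih]
    · have : ({0, 1} : Finset ℕ).card = 2 := by decide
      omega
    · rw [Finset.disjoint_left]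
      intro x hx hx2
      rw [mem_map_sh] at hx2
      simp only [Finset.mem_insert, Finset.mem_singleton] at hx
      omega

theorem image_join {k : ℕ} {T G : Finset ℕ} :
    (T ∪ G.map sh).image (phi (k + 1)) = T.image (phi (k + 1)) ∪ (G.image (phi k)).map sh := by
  rw [Finset.image_union]
  congr 1
  ext x
  simp only [Finset.mem_image, Finset.mem_map, sh_apply]
  constructor
  · rintro ⟨a, ⟨b, hb, rfl⟩, rfl⟩
    exact ⟨phi k b, ⟨b, hb, rfl⟩, (phi_add_two k b).symm⟩
  · rintro ⟨a, ⟨b, hb, rfl⟩, rfl⟩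
    exact ⟨b + 2, ⟨b, hb, rfl⟩, phi_add_two k b⟩

theorem image_top {k : ℕ} {T : Finset ℕ} (hT : T ∈ Tops) :
    T.image (phi (k + 1)) ∈ Tops ∧ Disjoint (T.image (phi (k + 1))) T := by
  rcases mem_Tops.1 hT with rfl | rfl | rfl
  · simp [Tops]
  · simp [Tops, phi_zero]
  · simp [Tops, phi_one]

theorem KK_sym (k : ℕ) : (∀ v ∈ verts (KK k), phi k (phi k v) = v) ∧
    (∀ F ∈ KK k, F.image (phi k) ∈ KK k) ∧ ∀ F ∈ KK k, Disjoint (F.image (phi k)) F := by
  induction k with
  | zero =>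
    refine ⟨?_, image_base, disj_base⟩
    intro v hv
    have hv' : v < 10 := (verts_base v).1 hv
    show phi0 (phi0 v) = v
    unfold phi0
    split_ifs <;> omega
  | succ k ih =>
    obtain ⟨ih1, ih2, ih3⟩ := ih
    refine ⟨?_, ?_, ?_⟩
    · intro v hv
      rw [verts_succ, Finset.mem_union, mem_map_sh, Finset.mem_insert, Finset.mem_singleton] at hv
      rcases hv with (rfl | rfl) | ⟨h1, h2⟩
      · rw [phi_zero, phi_one]
      · rw [phi_one, phi_zero]
      · obtain ⟨u, rfl⟩ : ∃ u, v = u + 2 := ⟨v - 2, by omega⟩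
        rw [phi_add_two, phi_add_two, ih1 u (by simpa using h2)]
    · intro F hF
      obtain ⟨T, hT, G, hG, rfl⟩ := mem_susp.1 hF
      rw [image_join]
      exact (join_mem_susp (image_top hT).1).2 (ih2 G hG)
    · intro F hF
      obtain ⟨T, hT, G, hG, rfl⟩ := mem_susp.1 hF
      rw [image_join]
      have hT' := image_top (k := k) hT
      rw [Finset.disjoint_left]
      intro x hx hx2
      rcases Finset.mem_union.1 hx with h1 | h1 <;> rcases Finset.mem_union.1 hx2 with h2 | h2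
      · exact Finset.disjoint_left.1 hT'.2 h1 h2
      · have := top_lt hT'.1 h1
        have := (mem_map_sh.1 h2).1
        omega
      · have := top_lt hT h2
        have := (mem_map_sh.1 h1).1
        omega
      · exact Finset.disjoint_left.1 (ih3 G hG) (mem_map_sh.1 h1).2 (mem_map_sh.1 h2).2

/-! ### Linear realizations -/

/-- A centrally symmetric family of vectors such that every face of `K` is cut out by a
linear functional. -/
def LinReal (E : Type*) [AddCommGroup E] [Module ℝ E] (K : Finset (Finset ℕ)) : Prop :=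
  ∃ x : ℕ → E, (∀ v ∈ verts K, ∃ w ∈ verts K, x w = - x v) ∧
    ∀ A ∈ K, ∃ h : E →ₗ[ℝ] ℝ, (∀ v ∈ A, h (x v) = 1) ∧ ∀ w ∈ verts K, w ∉ A → h (x w) < 1

theorem real_ineq {a l t : ℝ} (h : a + l * t = 0) (h1 : -1 < t) (h2 : t < 1) :
    (l = 0 ∧ a = 0) ∨ |a| < |l| := by
  rcases eq_or_ne l 0 with rfl | hl
  · left
    refine ⟨rfl, ?_⟩
    linarith
  · right
    have : a = -(l * t) := by linarith
    rw [this, abs_neg, abs_mul]
    have ht : |t| < 1 := abs_lt.2 ⟨h1, h2⟩
    have hl' : 0 < |l| := abs_pos.2 hl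
    nlinarith

theorem real_final {a b c d e : ℝ}
    (h1 : (d = 0 ∧ a + b + c + e = 0) ∨ |a + b + c + e| < |d|)
    (h2 : (e = 0 ∧ a + b + c - d = 0) ∨ |a + b + c - d| < |e|)
    (h3 : (c = 0 ∧ a + b - d + e = 0) ∨ |a + b - d + e| < |c|)
    (h4 : (b = 0 ∧ a + c + d - e = 0) ∨ |a + c + d - e| < |b|)
    (h5 : (e = 0 ∧ a - b + c - d = 0) ∨ |a - b + c - d| < |e|) :
    a = 0 ∧ b = 0 ∧ c = 0 ∧ d = 0 ∧ e = 0 := by
  rcases lt_trichotomy e 0 with he | he | he
  · exfalso
    rw [abs_of_neg he] at h2 h5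
    have h2' : |a + b + c - d| < -e := by
      rcases h2 with h | h
      · linarith [h.1]
      · exact h
    have h5' : |a - b + c - d| < -e := by
      rcases h5 with h | h
      · linarith [h.1]
      · exact h
    rw [abs_lt] at h2' h5'
    rcases lt_trichotomy b 0 with hb | hb | hb
    · rw [abs_of_neg hb, abs_lt] at h4
      rcases h4 with h4 | h4
      · linarith [h4.1]
      · rcases lt_trichotomy d 0 with hd | hd | hd
        · rw [abs_of_neg hd, abs_lt] at h1
          rcases h1 with h1 | h1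
          · linarith [h1.1]
          · linarith [h1.1, h1.2, h2'.1, h2'.2, h5'.1, h5'.2, h4.1, h4.2]
        · subst hd
          rw [abs_zero, abs_lt] at h1
          rcases h1 with h1 | h1
          · linarith [h1.1, h1.2, h2'.1, h2'.2, h5'.1, h5'.2, h4.1, h4.2]
          · linarith [h1.1, h1.2]
        · rw [abs_of_pos hd, abs_lt] at h1
          rcases h1 with h1 | h1
          · linarith [h1.1]
          · linarith [h1.1, h1.2, h2'.1, h2'.2, h5'.1, h5'.2, h4.1, h4.2]
    · subst hb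
      rw [abs_zero, abs_lt] at h4
      rcases h4 with h4 | h4
      · rcases lt_trichotomy d 0 with hd | hd | hd
        · rw [abs_of_neg hd, abs_lt] at h1
          rcases h1 with h1 | h1
          · linarith [h1.1]
          · linarith [h1.1, h1.2, h2'.1, h2'.2, h5'.1, h5'.2, h4.1, h4.2]
        · subst hd
          rw [abs_zero, abs_lt] at h1
          rcases h1 with h1 | h1
          · linarith [h1.1, h1.2, h2'.1, h2'.2, h5'.1, h5'.2, h4.1, h4.2]
          · linarith [h1.1, h1.2]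
        · rw [abs_of_pos hd, abs_lt] at h1
          rcases h1 with h1 | h1
          · linarith [h1.1]
          · linarith [h1.1, h1.2, h2'.1, h2'.2, h5'.1, h5'.2, h4.1, h4.2]
      · linarith [h4.1, h4.2]
    · rw [abs_of_pos hb, abs_lt] at h4
      rcases h4 with h4 | h4
      · linarith [h4.1]
      · rcases lt_trichotomy d 0 with hd | hd | hd
        · rw [abs_of_neg hd, abs_lt] at h1
          rcases h1 with h1 | h1
          · linarith [h1.1]
          · linarith [h1.1, h1.2, h2'.1, h2'.2, h5'.1, h5'.2, h4.1, h4.2]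
        · subst hd
          rw [abs_zero, abs_lt] at h1
          rcases h1 with h1 | h1
          · linarith [h1.1, h1.2, h2'.1, h2'.2, h5'.1, h5'.2, h4.1, h4.2]
          · linarith [h1.1, h1.2]
        · rw [abs_of_pos hd, abs_lt] at h1
          rcases h1 with h1 | h1
          · linarith [h1.1]
          · linarith [h1.1, h1.2, h2'.1, h2'.2, h5'.1, h5'.2, h4.1, h4.2]
  · subst he
    rw [abs_zero] at h2 h5
    have h2' : a + b + c - d = 0 := by
      rcases h2 with h | h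
      · exact h.2
      · exact absurd h (not_lt.2 (abs_nonneg _))
    have h5' : a - b + c - d = 0 := by
      rcases h5 with h | h
      · exact h.2
      · exact absurd h (not_lt.2 (abs_nonneg _))
    have hb : b = 0 := by linarith
    subst hb
    rw [abs_zero] at h4
    have h4' : a + c + d - 0 = 0 := by
      rcases h4 with h | h
      · exact h.2
      · exact absurd h (not_lt.2 (abs_nonneg _))
    have hd : d = 0 := by linarith
    subst hd
    have hac : a = -c := by linarith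
    rcases h3 with h | h
    · refine ⟨by linarith [h.1], rfl, h.1, rfl, rfl⟩
    · exfalso
      have : a + 0 - 0 + 0 = -c := by linarith
      rw [this, abs_neg] at h
      exact lt_irrefl _ h
  · exfalso
    rw [abs_of_pos he] at h2 h5
    have h2' : |a + b + c - d| < e := by
      rcases h2 with h | h
      · linarith [h.1]
      · exact h
    have h5' : |a - b + c - d| < e := by
      rcases h5 with h | h
      · linarith [h.1]
      · exact h
    rw [abs_lt] at h2' h5'
    rcases lt_trichotomy b 0 with hb | hb | hb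
    · rw [abs_of_neg hb, abs_lt] at h4
      rcases h4 with h4 | h4
      · linarith [h4.1]
      · rcases lt_trichotomy d 0 with hd | hd | hd
        · rw [abs_of_neg hd, abs_lt] at h1
          rcases h1 with h1 | h1
          · linarith [h1.1]
          · linarith [h1.1, h1.2, h2'.1, h2'.2, h5'.1, h5'.2, h4.1, h4.2]
        · subst hd
          rw [abs_zero, abs_lt] at h1
          rcases h1 with h1 | h1
          · linarith [h1.1, h1.2, h2'.1, h2'.2, h5'.1, h5'.2, h4.1, h4.2]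
          · linarith [h1.1, h1.2]
        · rw [abs_of_pos hd, abs_lt] at h1
          rcases h1 with h1 | h1
          · linarith [h1.1]
          · linarith [h1.1, h1.2, h2'.1, h2'.2, h5'.1, h5'.2, h4.1, h4.2]
    · subst hb
      rw [abs_zero, abs_lt] at h4
      rcases h4 with h4 | h4
      · rcases lt_trichotomy d 0 with hd | hd | hd
        · rw [abs_of_neg hd, abs_lt] at h1
          rcases h1 with h1 | h1
          · linarith [h1.1]
          · linarith [h1.1, h1.2, h2'.1, h2'.2, h5'.1, h5'.2, h4.1, h4.2]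
        · subst hd
          rw [abs_zero, abs_lt] at h1
          rcases h1 with h1 | h1
          · linarith [h1.1, h1.2, h2'.1, h2'.2, h5'.1, h5'.2, h4.1, h4.2]
          · linarith [h1.1, h1.2]
        · rw [abs_of_pos hd, abs_lt] at h1
          rcases h1 with h1 | h1
          · linarith [h1.1]
          · linarith [h1.1, h1.2, h2'.1, h2'.2, h5'.1, h5'.2, h4.1, h4.2]
      · linarith [h4.1, h4.2]
    · rw [abs_of_pos hb, abs_lt] at h4
      rcases h4 with h4 | h4
      · linarith [h4.1]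
      · rcases lt_trichotomy d 0 with hd | hd | hd
        · rw [abs_of_neg hd, abs_lt] at h1
          rcases h1 with h1 | h1
          · linarith [h1.1]
          · linarith [h1.1, h1.2, h2'.1, h2'.2, h5'.1, h5'.2, h4.1, h4.2]
        · subst hd
          rw [abs_zero, abs_lt] at h1
          rcases h1 with h1 | h1
          · linarith [h1.1, h1.2, h2'.1, h2'.2, h5'.1, h5'.2, h4.1, h4.2]
          · linarith [h1.1, h1.2]
        · rw [abs_of_pos hd, abs_lt] at h1
          rcases h1 with h1 | h1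
          · linarith [h1.1]
          · linarith [h1.1, h1.2, h2'.1, h2'.2, h5'.1, h5'.2, h4.1, h4.2]

theorem real_base {E : Type*} [AddCommGroup E] [Module ℝ E] [FiniteDimensional ℝ E]
    (hE : LinReal E (gen C0)) : 5 ≤ Module.finrank ℝ E := by
  obtain ⟨x, hx, hA⟩ := hE
  by_contra hlt
  push Not at hlt
  have hanti : ∀ i < 5, x (i + 5) = - x i := by
    intro i hi
    obtain ⟨w, hw, hxw⟩ := hx i ((verts_base i).2 (by omega))
    by_cases hwi : w = phi0 i
    · have : phi0 i = i + 5 := by simp [phi0, hi]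
      rw [← this, ← hwi, hxw]
    · exfalso
      obtain ⟨h, h1, -⟩ := hA _ (edge_base i ((verts_base i).2 (by omega)) w hw hwi)
      have h2 := h1 i (by simp)
      have h3 := h1 w (by simp)
      rw [hxw, map_neg, h2] at h3
      norm_num at h3
  have hdep : ¬ LinearIndependent ℝ (fun i : Fin 5 => x i) := by
    intro hli
    have := hli.fintype_card_le_finrank
    simp at this
    omega
  obtain ⟨g, hg, j, hj⟩ := Fintype.not_linearIndependent_iff.1 hdep
  have key : ∀ h : E →ₗ[ℝ] ℝ, g 0 * h (x 0) + g 1 * h (x 1) + g 2 * h (x 2) + g 3 * h (x 3) +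
      g 4 * h (x 4) = 0 := by
    intro h
    have h1 := congrArg h hg
    rw [map_sum, map_zero, Fin.sum_univ_five] at h1
    simpa [smul_eq_mul] using h1
  have n5 : x 5 = - x 0 := hanti 0 (by norm_num)
  have n6 : x 6 = - x 1 := hanti 1 (by norm_num)
  have n7 : x 7 = - x 2 := hanti 2 (by norm_num)
  have n8 : x 8 = - x 3 := hanti 3 (by norm_num)
  have n9 : x 9 = - x 4 := hanti 4 (by norm_num)
  -- the five facets
  have f1 : (g 3 = 0 ∧ g 0 + g 1 + g 2 + g 4 = 0) ∨ |g 0 + g 1 + g 2 + g 4| < |g 3| := by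
    obtain ⟨h, h1, h2⟩ := hA {0, 1, 2, 4} (mem_gen.2 ⟨{0, 1, 2, 4}, by decide +kernel, subset_rfl⟩)
    have e0 := h1 0 (by simp)
    have e1 := h1 1 (by simp)
    have e2 := h1 2 (by simp)
    have e4 := h1 4 (by simp)
    have u := h2 3 ((verts_base 3).2 (by norm_num)) (by simp)
    have l := h2 8 ((verts_base 8).2 (by norm_num)) (by simp)
    rw [n8, map_neg] at l
    have k := key h
    rw [e0, e1, e2, e4] at k
    exact real_ineq (t := h (x 3)) (by linarith) (by linarith) u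
  have f2 : (g 4 = 0 ∧ g 0 + g 1 + g 2 - g 3 = 0) ∨ |g 0 + g 1 + g 2 - g 3| < |g 4| := by
    obtain ⟨h, h1, h2⟩ := hA {0, 1, 2, 8} (mem_gen.2 ⟨{0, 1, 2, 8}, by decide +kernel, subset_rfl⟩)
    have e0 := h1 0 (by simp)
    have e1 := h1 1 (by simp)
    have e2 := h1 2 (by simp)
    have e3 := h1 8 (by simp)
    rw [n8, map_neg] at e3
    have u := h2 4 ((verts_base 4).2 (by norm_num)) (by simp)
    have l := h2 9 ((verts_base 9).2 (by norm_num)) (by simp)
    rw [n9, map_neg] at l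
    have k := key h
    have e3' : h (x 3) = -1 := by linarith
    rw [e0, e1, e2, e3'] at k
    exact real_ineq (t := h (x 4)) (by linarith) (by linarith) u
  have f3 : (g 2 = 0 ∧ g 0 + g 1 - g 3 + g 4 = 0) ∨ |g 0 + g 1 - g 3 + g 4| < |g 2| := by
    obtain ⟨h, h1, h2⟩ := hA {0, 1, 4, 8} (mem_gen.2 ⟨{0, 1, 4, 8}, by decide +kernel, subset_rfl⟩)
    have e0 := h1 0 (by simp)
    have e1 := h1 1 (by simp)
    have e4 := h1 4 (by simp)
    have e3 := h1 8 (by simp)
    rw [n8, map_neg] at e3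
    have u := h2 2 ((verts_base 2).2 (by norm_num)) (by simp)
    have l := h2 7 ((verts_base 7).2 (by norm_num)) (by simp)
    rw [n7, map_neg] at l
    have k := key h
    have e3' : h (x 3) = -1 := by linarith
    rw [e0, e1, e4, e3'] at k
    exact real_ineq (t := h (x 2)) (by linarith) (by linarith) u
  have f4 : (g 1 = 0 ∧ g 0 + g 2 + g 3 - g 4 = 0) ∨ |g 0 + g 2 + g 3 - g 4| < |g 1| := by
    obtain ⟨h, h1, h2⟩ := hA {0, 2, 3, 9} (mem_gen.2 ⟨{0, 2, 3, 9}, by decide +kernel, subset_rfl⟩)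
    have e0 := h1 0 (by simp)
    have e2 := h1 2 (by simp)
    have e3 := h1 3 (by simp)
    have e4 := h1 9 (by simp)
    rw [n9, map_neg] at e4
    have u := h2 1 ((verts_base 1).2 (by norm_num)) (by simp)
    have l := h2 6 ((verts_base 6).2 (by norm_num)) (by simp)
    rw [n6, map_neg] at l
    have k := key h
    have e4' : h (x 4) = -1 := by linarith
    rw [e0, e2, e3, e4'] at k
    exact real_ineq (t := h (x 1)) (by linarith) (by linarith) u
  have f5 : (g 4 = 0 ∧ g 0 - g 1 + g 2 - g 3 = 0) ∨ |g 0 - g 1 + g 2 - g 3| < |g 4| := by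
    obtain ⟨h, h1, h2⟩ := hA {0, 2, 6, 8} (mem_gen.2 ⟨{0, 2, 6, 8}, by decide +kernel, subset_rfl⟩)
    have e0 := h1 0 (by simp)
    have e1 := h1 6 (by simp)
    have e2 := h1 2 (by simp)
    have e3 := h1 8 (by simp)
    rw [n8, map_neg] at e3
    rw [n6, map_neg] at e1
    have u := h2 4 ((verts_base 4).2 (by norm_num)) (by simp)
    have l := h2 9 ((verts_base 9).2 (by norm_num)) (by simp)
    rw [n9, map_neg] at l
    have k := key h
    have e3' : h (x 3) = -1 := by linarith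
    have e1' : h (x 1) = -1 := by linarith
    rw [e0, e1', e2, e3'] at k
    exact real_ineq (t := h (x 4)) (by linarith) (by linarith) u
  obtain ⟨z0, z1, z2, z3, z4⟩ := real_final f1 f2 f3 f4 f5
  apply hj
  fin_cases j
  · exact z0
  · exact z1
  · exact z2
  · exact z3
  · exact z4

theorem real_susp {E : Type*} [AddCommGroup E] [Module ℝ E] {k : ℕ}
    (hE : LinReal E (KK (k + 1))) : ∃ u : E, u ≠ 0 ∧
      LinReal (E ⧸ Submodule.span ℝ {u}) (KK k) := by
  obtain ⟨x, hx, hA⟩ := hE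
  have hv0 : 0 ∈ verts (KK (k + 1)) := by rw [verts_succ]; simp
  have hv1 : 1 ∈ verts (KK (k + 1)) := by rw [verts_succ]; simp
  have hvs : ∀ v ∈ verts (KK k), v + 2 ∈ verts (KK (k + 1)) := fun v hv =>
    add_two_mem_verts.2 hv
  have hT0 : ({0} : Finset ℕ) ∈ Tops := by simp [Tops]
  have hT1 : ({1} : Finset ℕ) ∈ Tops := by simp [Tops]
  -- the point `x 0` is not zero
  have hx0 : x 0 ≠ 0 := by
    intro h0
    obtain ⟨h, h1, -⟩ := hA {0} (single_mem k hT0)
    have := h1 0 (by simp)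
    rw [h0, map_zero] at this
    norm_num at this
  have hx01 : x 1 = - x 0 := by
    obtain ⟨w, hw, hxw⟩ := hx 0 hv0
    rw [verts_succ, Finset.mem_union, mem_map_sh, Finset.mem_insert, Finset.mem_singleton] at hw
    rcases hw with (rfl | rfl) | ⟨h1, h2⟩
    · exfalso
      obtain ⟨h, h1, -⟩ := hA {0} (single_mem k hT0)
      have h3 := h1 0 (by simp)
      have h4 := congrArg h hxw
      rw [map_neg, h3] at h4
      norm_num at h4
    · exact hxw
    · exfalso
      obtain ⟨u, rfl⟩ : ∃ u, w = u + 2 := ⟨w - 2, by omega⟩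
      have hu : u ∈ verts (KK k) := by simpa using h2
      obtain ⟨F, hF, huF⟩ := mem_verts.1 hu
      obtain ⟨h, h3, -⟩ := hA ({0} ∪ F.map sh) ((join_mem_susp hT0).2 hF)
      have h5 := h3 0 (by simp)
      have h6 := h3 (u + 2) (Finset.mem_union_right _ (add_two_mem.2 huF))
      rw [hxw, map_neg, h5] at h6
      norm_num at h6
  refine ⟨x 0, hx0, fun v => Submodule.Quotient.mk (x (v + 2)), ?_, ?_⟩
  · intro v hv
    obtain ⟨w, hw, hxw⟩ := hx (v + 2) (hvs v hv)
    rw [verts_succ, Finset.mem_union, mem_map_sh, Finset.mem_insert, Finset.mem_singleton] at hw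
    have hne : ∀ a : ℕ, a < 2 → x a ≠ x (v + 2) := by
      intro a ha hxa
      have hTa : ({a} : Finset ℕ) ∈ Tops := by
        rw [mem_Tops]
        have : a = 0 ∨ a = 1 := by omega
        rcases this with rfl | rfl <;> simp
      obtain ⟨h, h1, h2⟩ := hA {a} (single_mem k hTa)
      have h3 := h1 a (by simp)
      have h4 := h2 (v + 2) (hvs v hv) (by simp; omega)
      rw [← hxa, h3] at h4
      exact lt_irrefl _ h4
    rcases hw with (rfl | rfl) | ⟨h1, h2⟩
    · exfalso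
      apply hne 1 (by norm_num)
      rw [hx01, hxw, neg_neg]
    · exfalso
      apply hne 0 (by norm_num)
      have : x (v + 2) = - x 1 := by rw [hxw, neg_neg]
      rw [this, hx01, neg_neg]
    · obtain ⟨u, rfl⟩ : ∃ u, w = u + 2 := ⟨w - 2, by omega⟩
      refine ⟨u, by simpa using h2, ?_⟩
      show (Submodule.Quotient.mk (x (u + 2)) : E ⧸ Submodule.span ℝ {x 0}) =
        - Submodule.Quotient.mk (x (v + 2))
      rw [hxw, Submodule.Quotient.mk_neg]
  · intro A hAK
    obtain ⟨hp, hp1, hp2⟩ := hA ({0} ∪ A.map sh) ((join_mem_susp hT0).2 hAK)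
    obtain ⟨hm, hm1, hm2⟩ := hA ({1} ∪ A.map sh) ((join_mem_susp hT1).2 hAK)
    have e1 : hp (x 0) = 1 := hp1 0 (by simp)
    have e2 : hm (x 0) = -1 := by
      have := hm1 1 (by simp)
      rw [hx01, map_neg] at this
      linarith
    have hker : Submodule.span ℝ {x 0} ≤ LinearMap.ker (hp + hm) := by
      rw [Submodule.span_le]
      rintro y hy
      rw [Set.mem_singleton_iff] at hy
      subst hy
      show (hp + hm) (x 0) = 0
      rw [LinearMap.add_apply, e1, e2]
      norm_num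
    refine ⟨(1 / 2 : ℝ) • Submodule.liftQ _ (hp + hm) hker, ?_, ?_⟩
    · intro v hv
      have a1 := hp1 (v + 2) (Finset.mem_union_right _ (add_two_mem.2 hv))
      have a2 := hm1 (v + 2) (Finset.mem_union_right _ (add_two_mem.2 hv))
      rw [LinearMap.smul_apply, Submodule.liftQ_apply, LinearMap.add_apply, a1, a2]
      norm_num
    · intro w hw hwA
      have b1 := hp2 (w + 2) (hvs w hw) (by
        intro h
        rcases Finset.mem_union.1 h with h | h
        · simp at h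
        · exact hwA (add_two_mem.1 h))
      have b2 := hm2 (w + 2) (hvs w hw) (by
        intro h
        rcases Finset.mem_union.1 h with h | h
        · simp at h
        · exact hwA (add_two_mem.1 h))
      rw [LinearMap.smul_apply, Submodule.liftQ_apply, LinearMap.add_apply, smul_eq_mul]
      linarith

theorem real_dim (k : ℕ) : ∀ (E : Type) [AddCommGroup E] [Module ℝ E] [FiniteDimensional ℝ E],
    LinReal E (KK k) → 5 + k ≤ Module.finrank ℝ E := by
  induction k with
  | zero =>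
    intro E _ _ _ hE
    exact real_base hE
  | succ k ih =>
    intro E _ _ _ hE
    obtain ⟨u, hu, hE'⟩ := real_susp hE
    have h1 := ih _ hE'
    have h2 := Submodule.finrank_quotient_add_finrank (Submodule.span ℝ ({u} : Set E))
    rw [finrank_span_singleton hu] at h2
    omega

/-- A realization as the boundary complex of a centrally symmetric polytope is a linear
realization. -/
theorem linReal_of_boundary {d : ℕ} {K : Finset (Finset ℕ)}
    {P : Set (EuclideanSpace ℝ (Fin d))} (hP : IsCSPolytope d P)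
    (hK : IsBoundaryComplex d K P) (hsub : ∀ A ∈ K, A ⊆ verts K) :
    LinReal (EuclideanSpace ℝ (Fin d)) K := by
  obtain ⟨-, -, hsym⟩ := hP
  obtain ⟨f, hf, hface⟩ := hK
  have hneg : ∀ y, y ∈ P.extremePoints ℝ → -y ∈ P.extremePoints ℝ := by
    intro y hy
    rw [mem_extremePoints] at hy ⊢
    refine ⟨(hsym y).1 hy.1, ?_⟩
    intro a ha b hb hab
    have h1 : y ∈ openSegment ℝ (-a) (-b) := by
      obtain ⟨s, t, hs, ht, hst, heq⟩ := hab
      refine ⟨s, t, hs, ht, hst, ?_⟩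
      rw [smul_neg, smul_neg, ← neg_add, heq, neg_neg]
    have h2 := hy.2 (-a) ((hsym a).1 ha) (-b) ((hsym b).1 hb) h1
    exact ⟨by rw [← h2.1, neg_neg], by rw [← h2.2, neg_neg]⟩
  refine ⟨f, ?_, ?_⟩
  · intro v hv
    have h1 := hneg _ (hf.mapsTo hv)
    obtain ⟨w, hw, hfw⟩ := hf.surjOn h1
    exact ⟨w, hw, hfw⟩
  · intro A hA
    rcases Finset.eq_empty_or_nonempty A with rfl | hAne
    · refine ⟨0, by simp, ?_⟩
      intro w _ _
      simp
    · obtain ⟨F, hF, hFP, hFA⟩ := (hface A (hsub A hA)).1 hA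
      obtain ⟨a, ha⟩ := hAne
      have hfa : f a ∈ F ∩ P.extremePoints ℝ := by
        rw [hFA]
        exact ⟨a, ha, rfl⟩
      obtain ⟨l, hl⟩ := hF ⟨f a, hfa.1⟩
      have hfaP : f a ∈ P := hfa.2.1
      have hmax : ∀ y ∈ P, l y ≤ l (f a) := by
        have := hfa.1
        rw [hl] at this
        exact this.2
      have hpos : 0 < l (f a) := by
        by_contra hle
        push Not at hle
        apply hFP
        rw [hl]
        ext y
        constructor
        · intro h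
          exact h.1
        · intro hy
          refine ⟨hy, ?_⟩
          intro z hz
          have h1 := hmax z hz
          have h2 := hmax (-y) ((hsym y).1 hy)
          rw [map_neg] at h2
          linarith
      have hmem : ∀ y ∈ P, l y = l (f a) → y ∈ F := by
        intro y hy h
        rw [hl]
        exact ⟨hy, fun z hz => by rw [h]; exact hmax z hz⟩
      refine ⟨(l (f a))⁻¹ • (l : EuclideanSpace ℝ (Fin d) →ₗ[ℝ] ℝ), ?_, ?_⟩
      · intro v hv
        have hfv : f v ∈ F ∩ P.extremePoints ℝ := by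
          rw [hFA]
          exact ⟨v, hv, rfl⟩
        have h1 : l (f v) = l (f a) := by
          apply le_antisymm (hmax _ hfv.2.1)
          have := hfv.1
          rw [hl] at this
          exact this.2 _ hfaP
        show (l (f a))⁻¹ * l (f v) = 1
        rw [h1]
        exact inv_mul_cancel₀ hpos.ne'
      · intro w hw hwA
        have hwP : f w ∈ P := (hf.mapsTo hw).1
        have h1 : l (f w) < l (f a) := by
          apply lt_of_le_of_ne (hmax _ hwP)
          intro h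
          have h2 : f w ∈ F ∩ P.extremePoints ℝ := ⟨hmem _ hwP h, hf.mapsTo hw⟩
          rw [hFA] at h2
          obtain ⟨v, hv, hvw⟩ := h2
          have : v = w := hf.injOn (hsub A hA hv) hw hvw
          exact hwA (this ▸ hv)
        show (l (f a))⁻¹ * l (f w) < 1
        rw [inv_mul_lt_iff₀ hpos, mul_one]
        exact h1

/-- For every `n ≥ 3` there is a symmetric `n`-sphere with exactly `2 n + 4` vertices that is not
isomorphic to the boundary complex of a centrally symmetric `(n+1)`-polytope. -/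
theorem result : ∀ n : ℕ, 3 ≤ n → ∃ K : Finset (Finset ℕ),
    IsComplex K ∧ IsSymmetricSphere n K ∧ (verts K).card = 2 * n + 4 ∧
      ∀ P : Set (EuclideanSpace ℝ (Fin (n + 1))), IsCSPolytope (n + 1) P →
        ¬ IsBoundaryComplex (n + 1) K P := by
  intro n hn
  obtain ⟨k, rfl⟩ : ∃ k, n = 3 + k := ⟨n - 3, by omega⟩
  refine ⟨KK k, ⟨empty_mem k, ?_⟩, ⟨KK_sphere k, phi k, KK_sym k⟩, verts_card k, ?_⟩
  · clear hn
    induction k with
    | zero =>
      intro F hF G hG
      obtain ⟨H, hH, hFH⟩ := mem_gen.1 hF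
      exact mem_gen.2 ⟨H, hH, hG.trans hFH⟩
    | succ k ih =>
      intro F hF G hG
      obtain ⟨T, hT, H, hH, rfl⟩ := mem_susp.1 hF
      have hT' : G ∩ T ∈ Tops := by
        rcases mem_Tops.1 hT with rfl | rfl | rfl
        · simp [Tops]
        · by_cases h : 0 ∈ G
          · rw [Finset.inter_singleton_of_mem h]; exact hT
          · rw [Finset.inter_singleton_of_notMem h]; simp [Tops]
        · by_cases h : 1 ∈ G
          · rw [Finset.inter_singleton_of_mem h]; exact hT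
          · rw [Finset.inter_singleton_of_notMem h]; simp [Tops]
      obtain ⟨H', hH', hGH'⟩ : ∃ H' ⊆ H, G ∩ H.map sh = H'.map sh :=
        Finset.subset_map_iff.1 Finset.inter_subset_right
      have : G = (G ∩ T) ∪ H'.map sh := by
        rw [← hGH', ← Finset.inter_union_distrib_left]
        exact (Finset.inter_eq_left.2 hG).symm
      rw [this]
      exact (join_mem_susp hT').2 (ih H hH H' hH')
  · intro P hP hK
    have h1 : LinReal (EuclideanSpace ℝ (Fin (3 + k + 1))) (KK k) := by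
      apply linReal_of_boundary hP hK
      intro A hA v hv
      exact mem_verts.2 ⟨A, hA, hv⟩
    have h2 := real_dim k _ h1
    rw [finrank_euclideanSpace_fin] at h2
    omega

end Pool.Agent.Results.MP_ca8007_co.NonPolytopalSpheres
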